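import Mathlib

/-!
# Selective high divergence is not inherited by dense subspaces

The Cantor cube `{0,1}^I` with `#I = 𝔠` is selectively highly divergent. Its `Σ`-product, the dense
set of the points with countable support, is sequentially compact, so it is not.
-/

set_option autoImplicit false

open Filter Topology Set

namespace Pool.Agent.Results.MP_f0fa00_gt.SigmaProduct

/-- A space is selectively highly divergent if from every sequence of nonempty open sets one can
select points such that no subsequence of the selected sequence converges. -/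
def SHD (X : Type) [TopologicalSpace X] : Prop :=
  ∀ U : ℕ → Set X, (∀ n, IsOpen (U n) ∧ (U n).Nonempty) →
    ∃ x : ℕ → X, (∀ n, x n ∈ U n) ∧
      ∀ φ : ℕ → ℕ, StrictMono φ → ¬ ∃ a : X, Tendsto (fun n => x (φ n)) atTop (𝓝 a)

/-- The index set, of cardinality continuum. -/
abbrev Idx : Type := (ℕ → ℕ) × ℝ

/-- The Cantor cube of weight continuum. -/
abbrev Cube : Type := Idx → Bool

/-- The `Σ`-product. -/
def Sig : Set Cube := {x | {i | x i = true}.Countable}

theorem shd_cube : SHD Cube := by
  classical
  intro U hU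
  have h1 : ∀ n, ∃ (y : Cube) (F : Finset Idx), ∀ x : Cube, (∀ i ∈ F, x i = y i) → x ∈ U n := by
    intro n
    obtain ⟨y, hy⟩ := (hU n).2
    have h2 : U n ∈ 𝓝 y := (hU n).1.mem_nhds hy
    rw [nhds_pi, Filter.mem_pi] at h2
    obtain ⟨J, hJ, t, ht, htU⟩ := h2
    refine ⟨y, hJ.toFinset, fun x hx => htU fun i hi => ?_⟩
    rw [hx i (hJ.mem_toFinset.2 hi)]
    exact mem_of_mem_nhds (ht i)
  choose y F hF using h1
  set C : Set Idx := ⋃ n, (F n : Set Idx) with hC
  have hCc : C.Countable := countable_iUnion fun n => (F n).countable_toSet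
  refine ⟨fun n i => if i ∈ C then y n i else decide (∃ k, n = i.1 (2 * k)), fun n => ?_, ?_⟩
  · refine hF n _ fun i hi => ?_
    have : i ∈ C := mem_iUnion.2 ⟨n, hi⟩
    simp [this]
  · rintro φ hφ ⟨a, ha⟩
    obtain ⟨r, hr⟩ : ∃ r : ℝ, (φ, r) ∉ C := by
      by_contra hcon
      push Not at hcon
      have h2 : (univ : Set ℝ).Countable := by
        have h3 : (Prod.snd '' C).Countable := hCc.image _
        refine h3.mono fun r _ => mem_image_of_mem Prod.snd (hcon r)
      exact Set.not_countable_univ h2
    have h3 := (tendsto_pi_nhds.1 ha) (φ, r)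
    have h4 : ∀ᶠ n in atTop, (if ((φ, r) : Idx) ∈ C then y (φ n) (φ, r)
        else decide (∃ k, φ n = φ (2 * k))) = a (φ, r) := by
      have := h3.eventually (mem_nhds_discrete.2 (mem_singleton (a (φ, r))))
      exact this.mono fun n hn => hn
    obtain ⟨N, hN⟩ := eventually_atTop.1 h4
    have e1 := hN (2 * N) (by omega)
    have e2 := hN (2 * N + 1) (by omega)
    rw [if_neg hr] at e1 e2
    rw [← e2] at e1
    have h5 : (∃ k, φ (2 * N) = φ (2 * k)) := ⟨N, rfl⟩
    have h6 : ¬ (∃ k, φ (2 * N + 1) = φ (2 * k)) := by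
      rintro ⟨k, hk⟩
      have := hφ.injective hk
      omega
    simp [h5, h6] at e1

theorem dense_sig : Dense Sig := by
  classical
  intro x
  rw [mem_closure_iff_nhds]
  intro t ht
  rw [nhds_pi, Filter.mem_pi] at ht
  obtain ⟨J, hJ, s, hs, hst⟩ := ht
  refine ⟨fun i => if i ∈ J then x i else false, hst fun i hi => ?_, ?_⟩
  · simp only [hi, if_true]
    exact mem_of_mem_nhds (hs i)
  · refine (hJ.countable).mono fun i hi => ?_
    by_contra h
    simp [h] at hi

/-- every sequence of points of the `Σ`-product has a subsequence converging in it -/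
theorem seq_sig (x : ℕ → Sig) : ∃ φ : ℕ → ℕ, StrictMono φ ∧
    ∃ a : Sig, Tendsto (fun n => x (φ n)) atTop (𝓝 a) := by
  classical
  set S : Set Idx := ⋃ n, {i | (x n).1 i = true} with hS
  have hSc : S.Countable := countable_iUnion fun n => (x n).2
  have : Countable S := hSc.to_subtype
  obtain ⟨z, -, φ, hφ, hz⟩ := (isCompact_univ (X := S → Bool)).tendsto_subseq
    (x := fun n (i : S) => (x n).1 i.1) (fun _ => mem_univ _)
  refine ⟨φ, hφ, ⟨fun i => if h : i ∈ S then z ⟨i, h⟩ else false, ?_⟩, ?_⟩
  · refine hSc.mono fun i hi => ?_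
    by_contra h
    simp [h] at hi
  · rw [tendsto_subtype_rng, tendsto_pi_nhds]
    intro i
    by_cases h : i ∈ S
    · have := (tendsto_pi_nhds.1 hz) ⟨i, h⟩
      simpa [h] using this
    · have h2 : ∀ n, (x (φ n)).1 i = false := by
        intro n
        by_contra h3
        exact h (mem_iUnion.2 ⟨φ n, by simpa using h3⟩)
      simp only [h, dite_false]
      refine tendsto_const_nhds.congr fun n => (h2 n).symm

/-- Selective high divergence is not inherited by dense subspaces: there is a compact Hausdorff
space which is selectively highly divergent and has a dense subspace that is not selectively highly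
divergent. -/
theorem result : ∃ (X : Type) (_ : TopologicalSpace X), CompactSpace X ∧ T2Space X ∧ SHD X ∧
    ∃ D : Set X, Dense D ∧ ¬ SHD D := by
  refine ⟨Cube, inferInstance, inferInstance, inferInstance, shd_cube, Sig, dense_sig, ?_⟩
  intro h
  have hne : Nonempty Sig := ⟨⟨fun _ => false, by simp [Sig]⟩⟩
  obtain ⟨x, -, hx⟩ := h (fun _ => univ) fun _ => ⟨isOpen_univ, univ_nonempty⟩
  obtain ⟨φ, hφ, ha⟩ := seq_sig x
  exact hx φ hφ ha

end Pool.Agent.Results.MP_f0fa00_gt.SigmaProduct
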